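import Mathlib

/-!
# Co-chordality of all jet graphs is decided by the graph of 2-jets

If the graph of `2`-jets of `G` is co-chordal, then so is the graph of `s`-jets for every `s`.
Given a chordless cycle of length at least four in the complement of the graph of `s`-jets, let
`h` be a vertex of it of largest level.  Give `h` the new level `2`, and every other vertex `x` of
the cycle the new level `0` or `1` according to whether `level x + level h ≤ s` or not.  This
turns the cycle into a chordless cycle in the complement of the graph of `2`-jets.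
-/

namespace Pool.Agent.Results.MP_bdbea1_co.TwoJetsDecide

open SimpleGraph

universe u

/-- A graph is chordal if every cycle of length at least `4` in it has a chord. -/
def IsChordal {V : Type u} (H : SimpleGraph V) : Prop :=
  ∀ (v : V) (c : H.Walk v v), c.IsCycle → 4 ≤ c.length → ∃ e, c.IsChord e

/-- A graph is co-chordal if its complement is chordal. -/
def IsCochordal {V : Type u} (H : SimpleGraph V) : Prop := IsChordal Hᶜ

/-- The graph of `s`-jets of `G`: its vertices are the pairs `(x, a)` with `x` a vertex of `G` and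
`a ∈ {0, ..., s}`, and `(x, a)`, `(y, b)` are adjacent exactly when `x`, `y` are adjacent in `G`
and `a + b ≤ s`. -/
def jetGraph {V : Type u} (G : SimpleGraph V) (s : ℕ) : SimpleGraph (V × Fin (s + 1)) where
  Adj p q := G.Adj p.1 q.1 ∧ (p.2 : ℕ) + (q.2 : ℕ) ≤ s
  symm := ⟨fun _ _ h => ⟨h.1.symm, by have := h.2; omega⟩⟩
  loopless := ⟨fun _ h => G.loopless.irrefl _ h.1⟩

section cycles

variable {V : Type u} {H : SimpleGraph V}

/-- A chordless cycle of length at least four contains no triangle. -/
lemma no_triangle {v : V} {c : H.Walk v v} (hc : c.IsCycle) (h4 : 4 ≤ c.length)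
    (hl : c.IsChordless) {x y z : V} (hx : x ∈ c.support) (hy : y ∈ c.support)
    (hz : z ∈ c.support) (hxy : H.Adj x y) (hyz : H.Adj y z) (hxz : H.Adj x z) : False := by
  classical
  have e1 := hl.mem_edges hx hy hxy
  have e2 := hl.mem_edges hy hz hyz
  have e3 := hl.mem_edges hx hz hxz
  set d := c.rotate x hx with hd
  have hdc : d.IsCycle := hc.rotate hx
  have hlen : d.length = c.length := by simp [hd]
  have hedge : ∀ e, e ∈ c.edges → e ∈ d.edges := by
    intro e he
    exact (c.rotate_edges x hx).mem_iff.2 he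
  have a1 : y ∈ d.toSubgraph.neighborSet x :=
    Walk.adj_toSubgraph_iff_mem_edges.2 (hedge _ e1)
  have a2 : z ∈ d.toSubgraph.neighborSet x :=
    Walk.adj_toSubgraph_iff_mem_edges.2 (hedge _ e3)
  have a3 : d.toSubgraph.Adj y z := Walk.adj_toSubgraph_iff_mem_edges.2 (hedge _ e2)
  rw [hdc.neighborSet_toSubgraph_endpoint] at a1 a2
  have key : d.toSubgraph.Adj (d.getVert 1) (d.getVert (d.length - 1)) := by
    rcases a1 with rfl | rfl <;> rcases a2 with rfl | rfl
    · exact absurd rfl hyz.ne
    · exact a3
    · exact a3.symm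
    · exact absurd rfl hyz.ne
  have key' : d.getVert (d.length - 1) ∈ d.toSubgraph.neighborSet (d.getVert 1) := key
  rw [hdc.neighborSet_toSubgraph_internal one_ne_zero (by omega)] at key'
  rcases key' with h | h
  · have := hdc.getVert_injOn' (by simp) (by simp) h
    omega
  · have := hdc.getVert_injOn' (by simp) (by simp; omega) h
    omega

/-- Every vertex of a cycle has a neighbour along the cycle other than a given one. -/
lemma exists_other {v : V} {c : H.Walk v v} (hc : c.IsCycle) {x : V} (hx : x ∈ c.support) (y : V) :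
    ∃ z, z ≠ y ∧ z ≠ x ∧ z ∈ c.support ∧ s(x, z) ∈ c.edges := by
  have h2 := hc.ncard_neighborSet_toSubgraph_eq_two hx
  obtain ⟨z, hz, hzy⟩ := Set.exists_ne_of_one_lt_ncard (s := c.toSubgraph.neighborSet x)
    (by omega) y
  have hz' : c.toSubgraph.Adj x z := hz
  refine ⟨z, hzy, ?_, Walk.mem_support_of_adj_toSubgraph hz'.symm,
    Walk.adj_toSubgraph_iff_mem_edges.1 hz'⟩
  rintro rfl
  exact hz'.ne rfl

/-- Transfer of chordless cycles along a map which is an embedding on the cycle. -/
lemma exists_chord_of_map {W : Type u} {K : SimpleGraph W} (hK : IsChordal K) {v : V}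
    {c : H.Walk v v} (hc : c.IsCycle) (h4 : 4 ≤ c.length) (ψ : V → W)
    (hinj : ∀ x ∈ c.support, ∀ y ∈ c.support, ψ x = ψ y → x = y)
    (hadj : ∀ x ∈ c.support, ∀ y ∈ c.support, x ≠ y → (H.Adj x y ↔ K.Adj (ψ x) (ψ y))) :
    ¬ c.IsChordless := by
  intro hl
  set S : Set V := {x | x ∈ c.support} with hS
  have hsub : ∀ x ∈ c.support, x ∈ S := fun x hx => hx
  set c' := c.induce S hsub with hc'
  let φ : H.induce S →g K :=
    { toFun := fun x => ψ x.1
      map_rel' := by
        intro a b hab
        have hab' : H.Adj a.1 b.1 := hab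
        exact (hadj a.1 a.2 b.1 b.2 hab'.ne).1 hab' }
  have hφ : Function.Injective φ := fun a b hab => Subtype.ext (hinj _ a.2 _ b.2 hab)
  have hmap : c'.map (Embedding.induce S).toHom = c := c.map_induce hsub
  have e1 : (c'.map (Embedding.induce S).toHom).IsCycle := by
    have h := hc
    rw [← hmap] at h
    exact h
  have hcyc' : c'.IsCycle :=
    (Walk.isCycle_map_iff_of_injective (f := (Embedding.induce (G := H) S).toHom)
      Subtype.val_injective).1 e1
  have hcyc : (c'.map φ).IsCycle := hcyc'.map hφ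
  have hlen : c'.length = c.length := by
    have := congrArg Walk.length hmap
    exact (Walk.length_map _ _).symm.trans this
  obtain ⟨e, he⟩ := hK _ _ hcyc (by rw [Walk.length_map, hlen]; exact h4)
  revert he
  refine Sym2.ind (fun a b he => ?_) e
  rw [Walk.isChord_sym2Mk] at he
  obtain ⟨h1, h2, h3, h5⟩ := he
  rw [Walk.support_map, List.mem_map] at h3 h5
  obtain ⟨a, ha, rfl⟩ := h3
  obtain ⟨b, hb, rfl⟩ := h5
  have hne : a.1 ≠ b.1 := by
    intro h
    have : a = b := Subtype.ext h
    subst this
    exact h1.ne rfl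
  have hab : H.Adj a.1 b.1 := (hadj a.1 a.2 b.1 b.2 hne).2 h1
  have hmem := hl.mem_edges a.2 b.2 hab
  apply h2
  have hedges : c'.edges.map (Sym2.map (Embedding.induce S).toHom) = c.edges :=
    (Walk.edges_map _ _).symm.trans (congrArg Walk.edges hmap)
  rw [← hedges, List.mem_map] at hmem
  obtain ⟨e', he', hee⟩ := hmem
  rw [Walk.edges_map, List.mem_map]
  refine ⟨e', he', ?_⟩
  revert he' hee
  refine Sym2.ind (fun p q _ hee => ?_) e'
  rw [Sym2.map_mk] at hee ⊢
  simp only [Sym2.eq_iff] at hee ⊢
  rcases hee with ⟨h6, h7⟩ | ⟨h6, h7⟩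
  · left
    exact ⟨congrArg φ (Subtype.ext h6), congrArg φ (Subtype.ext h7)⟩
  · right
    exact ⟨congrArg φ (Subtype.ext h6), congrArg φ (Subtype.ext h7)⟩

end cycles

/-- **Answer to Q1.**  If the graph of `2`-jets of a simple graph `G` is co-chordal, then the
graph of `s`-jets of `G` is co-chordal for every `s`. -/
theorem result {V : Type u} (G : SimpleGraph V) (h2 : IsCochordal (jetGraph G 2)) (s : ℕ) :
    IsCochordal (jetGraph G s) := by
  classical
  intro v c hc h4
  by_contra hno
  have hl : c.IsChordless := fun e he => hno ⟨e, he⟩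
  -- a vertex of maximal level
  obtain ⟨h, hh, hmax⟩ : ∃ h ∈ c.support, ∀ x ∈ c.support, (x.2 : ℕ) ≤ h.2 := by
    obtain ⟨h, hh, hmax⟩ := Finset.exists_max_image c.support.toFinset (fun x => (x.2 : ℕ))
      ⟨v, by simp⟩
    exact ⟨h, by simpa using hh, fun x hx => hmax x (by simpa using hx)⟩
  let ψ : V × Fin (s + 1) → V × Fin (2 + 1) := fun p =>
    (p.1, if p = h then 2 else if (p.2 : ℕ) + (h.2 : ℕ) ≤ s then 0 else 1)
  -- the compressed levels carry the same information
  have hrel : ∀ x ∈ c.support, ∀ y ∈ c.support, x ≠ y →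
      ((jetGraph G s).Adj x y ↔ (jetGraph G 2).Adj (ψ x) (ψ y)) := by
    intro x hx y hy hxy
    have hmx := hmax x hx
    have hmy := hmax y hy
    have tri : x ≠ h → y ≠ h → G.Adj x.1 y.1 → (x.2 : ℕ) + y.2 ≤ s := by
      intro hxh hyh hG
      by_contra hlt
      have a1 : ((jetGraph G s)ᶜ).Adj x y := by
        rw [compl_adj]
        exact ⟨hxy, fun h => hlt h.2⟩
      have a2 : ((jetGraph G s)ᶜ).Adj y h := by
        rw [compl_adj]
        exact ⟨hyh, fun h => by have := h.2; omega⟩
      have a3 : ((jetGraph G s)ᶜ).Adj x h := by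
        rw [compl_adj]
        exact ⟨hxh, fun h => by have := h.2; omega⟩
      exact no_triangle hc h4 hl hx hy hh a1 a2 a3
    change (G.Adj x.1 y.1 ∧ (x.2 : ℕ) + y.2 ≤ s) ↔ (G.Adj x.1 y.1 ∧ ((ψ x).2 : ℕ) + (ψ y).2 ≤ 2)
    refine and_congr_right fun hG => ?_
    by_cases hxh : x = h
    · have hyh : y ≠ h := fun e => hxy (hxh.trans e.symm)
      simp only [ψ, hxh, hyh, if_true, if_false]
      split_ifs with h1
      · simp; omega
      · simp; omega
    · by_cases hyh : y = h
      · simp only [ψ, hxh, hyh, if_true, if_false]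
        split_ifs with h1
        · simp; omega
        · simp; omega
      · have := tri hxh hyh hG
        simp only [ψ, hxh, hyh, if_false]
        refine iff_of_true this ?_
        split_ifs <;> simp
  have hinj : ∀ x ∈ c.support, ∀ y ∈ c.support, ψ x = ψ y → x = y := by
    intro x hx y hy hψ
    by_contra hne
    have h1 : (ψ x).1 = (ψ y).1 := by rw [hψ]
    have h1 : x.1 = y.1 := h1
    have a1 : ((jetGraph G s)ᶜ).Adj x y := by
      rw [compl_adj]
      refine ⟨hne, fun h => ?_⟩
      have := h.1
      rw [h1] at this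
      exact this.ne rfl
    obtain ⟨z, hzy, hzx, hz, hxz⟩ := exists_other hc hx y
    have a2 : ((jetGraph G s)ᶜ).Adj x z := c.adj_of_mem_edges hxz
    have a3 : ((jetGraph G s)ᶜ).Adj y z := by
      rw [compl_adj] at a2 ⊢
      refine ⟨hzy.symm, fun h => a2.2 ?_⟩
      rw [hrel y hy z hz hzy.symm, ← hψ, ← hrel x hx z hz hzx.symm] at h
      exact h
    exact no_triangle hc h4 hl hx hy hz a1 a3 a2
  refine exists_chord_of_map h2 hc h4 ψ hinj ?_ hl
  intro x hx y hy hxy
  rw [compl_adj, compl_adj, hrel x hx y hy hxy]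
  exact ⟨fun h => ⟨fun e => hxy (hinj x hx y hy e), h.2⟩, fun h => ⟨hxy, h.2⟩⟩

end Pool.Agent.Results.MP_bdbea1_co.TwoJetsDecide
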